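import Pool.Agent.Q204.RA.Defs

/-!
# Basic arithmetic of relation algebras
-/

namespace Q204.RA

universe u

open RelAlg

variable {B : Type u} [RelAlg B]

theorem conv_mono {x y : B} (h : x ≤ y) : conv x ≤ conv y := by
  have h1 : conv (x ⊔ y) = conv y := by rw [sup_eq_right.mpr h]
  rw [conv_sup] at h1
  exact sup_eq_right.mp h1

theorem conv_le_iff {x y : B} : conv x ≤ conv y ↔ x ≤ y :=
  ⟨fun h => by simpa [conv_conv] using conv_mono h, conv_mono⟩

/-- The converse operation as an order isomorphism. -/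
def convIso (B : Type u) [RelAlg B] : B ≃o B where
  toFun := conv
  invFun := conv
  left_inv := conv_conv
  right_inv := conv_conv
  map_rel_iff' := conv_le_iff

theorem conv_bot : conv (⊥ : B) = ⊥ := (convIso B).map_bot
theorem conv_top : conv (⊤ : B) = ⊤ := (convIso B).map_top
theorem conv_inf (x y : B) : conv (x ⊓ y) = conv x ⊓ conv y := (convIso B).map_inf x y

theorem conv_eq_bot {x : B} : conv x = ⊥ ↔ x = ⊥ := by
  constructor
  · intro h
    rw [← conv_conv x, h, conv_bot]
  · intro h
    rw [h, conv_bot]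

theorem conv_ident : conv (ident : B) = ident := by
  have h : conv (ident : B) = comp (conv ident) ident := (comp_ident _).symm
  have h2 := congrArg conv h
  rw [conv_comp, conv_conv] at h2
  exact h.trans h2.symm

theorem ident_comp (x : B) : comp ident x = x := by
  have h : comp (conv x) ident = conv x := comp_ident _
  have h2 := congrArg conv h
  rw [conv_comp, conv_conv, conv_ident] at h2
  exact h2

theorem comp_mono_left {x y : B} (h : x ≤ y) (z : B) : comp x z ≤ comp y z := by
  have h1 : comp (x ⊔ y) z = comp y z := by rw [sup_eq_right.mpr h]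
  rw [sup_comp] at h1
  exact sup_eq_right.mp h1

theorem comp_mono_right {x y : B} (h : x ≤ y) (z : B) : comp z x ≤ comp z y := by
  have h1 := conv_mono (comp_mono_left (conv_mono h) (conv z))
  simpa [conv_comp, conv_conv] using h1

theorem comp_mono {x y z w : B} (h : x ≤ y) (h' : z ≤ w) : comp x z ≤ comp y w :=
  (comp_mono_left h z).trans (comp_mono_right h' y)

theorem tarski_le (x y : B) : comp (conv x) (comp x y)ᶜ ≤ yᶜ :=
  sup_eq_right.mp (tarski x y)

theorem cycle1_aux {x y z : B} (h : comp x y ⊓ z = ⊥) : comp (conv x) z ⊓ y = ⊥ := by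
  have h1 : z ≤ (comp x y)ᶜ := by
    rw [le_compl_iff_disjoint_left]
    exact disjoint_iff.mpr h
  have h2 := (comp_mono_right h1 (conv x)).trans (tarski_le x y)
  rw [le_compl_iff_disjoint_right] at h2
  exact disjoint_iff.mp h2

theorem cycle1 {x y z : B} : comp x y ⊓ z = ⊥ ↔ comp (conv x) z ⊓ y = ⊥ := by
  constructor
  · exact cycle1_aux
  · intro h
    have := cycle1_aux h
    rwa [conv_conv] at this

theorem cycle2 {x y z : B} : comp x y ⊓ z = ⊥ ↔ comp z (conv y) ⊓ x = ⊥ := by
  have h1 : comp x y ⊓ z = ⊥ ↔ comp (conv y) (conv x) ⊓ conv z = ⊥ := by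
    rw [← conv_comp, ← conv_inf, conv_eq_bot]
  have h2 : comp z (conv y) ⊓ x = ⊥ ↔ comp y (conv z) ⊓ conv x = ⊥ := by
    rw [← conv_eq_bot, conv_inf, conv_comp, conv_conv]
  rw [h1, h2, cycle1, conv_conv]

theorem comp_bot (x : B) : comp x ⊥ = ⊥ := by
  have h : comp x ⊥ ⊓ comp x ⊥ = ⊥ := cycle1.mpr (by simp)
  simpa using h

theorem bot_comp (x : B) : comp ⊥ x = ⊥ := by
  have h : comp ⊥ x ⊓ comp ⊥ x = ⊥ := cycle2.mpr (by simp)
  simpa using h

theorem conv_atom {a : B} (h : IsAtom a) : IsAtom (conv a) :=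
  (OrderIso.isAtom_iff (convIso B) a).mpr h

theorem conv_atom_iff {a : B} : IsAtom (conv a) ↔ IsAtom a :=
  ⟨fun h => by simpa [conv_conv] using conv_atom h, conv_atom⟩

/-- an atom meeting `x` lies below `x`. -/
theorem atom_le {a x : B} (h : IsAtom a) (h' : x ⊓ a ≠ ⊥) : a ≤ x := by
  rcases h.le_iff.mp (inf_le_right : x ⊓ a ≤ a) with h1 | h1
  · exact absurd h1 h'
  · rw [← h1]; exact inf_le_left

theorem atom_inf {a x : B} (h : IsAtom a) (h' : a ≤ x) : x ⊓ a ≠ ⊥ := by
  rw [inf_eq_right.mpr h']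
  exact h.1

theorem atom_eq {a b : B} (h : IsAtom a) (hb : IsAtom b) (h' : a ≤ b) : a = b := by
  rcases hb.le_iff.mp h' with h1 | h1
  · exact absurd h1 h.1
  · exact h1

theorem cyc1 {x y z : B} (h : comp x y ⊓ z ≠ ⊥) : comp (conv x) z ⊓ y ≠ ⊥ :=
  fun h' => h (cycle1.mpr h')

theorem cyc1' {x y z : B} (h : comp (conv x) z ⊓ y ≠ ⊥) : comp x y ⊓ z ≠ ⊥ :=
  fun h' => h (cycle1.mp h')

theorem cyc2 {x y z : B} (h : comp x y ⊓ z ≠ ⊥) : comp z (conv y) ⊓ x ≠ ⊥ :=
  fun h' => h (cycle2.mpr h')

theorem cyc2' {x y z : B} (h : comp z (conv y) ⊓ x ≠ ⊥) : comp x y ⊓ z ≠ ⊥ :=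
  fun h' => h (cycle2.mp h')

/-- Identity atoms are symmetric idempotents. -/
theorem ident_atom {e : B} (h : IsAtom e) (he : e ≤ ident) : conv e = e ∧ comp e e = e := by
  have h1 : comp e ident ⊓ e ≠ ⊥ := by
    rw [comp_ident]; simpa using h.1
  have h2 := cyc1 h1
  have h3 : comp (conv e) e ≤ e := by
    have := comp_mono_left (conv_mono he) e
    rwa [conv_ident, ident_comp] at this
  have h4 : comp (conv e) e ≤ conv e := by
    have := comp_mono_right he (conv e)
    rwa [comp_ident] at this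
  have h5 : comp (conv e) e ≠ ⊥ := by
    intro h6
    rw [h6] at h2
    simp at h2
  have h6 : comp (conv e) e = e := by
    rcases h.le_iff.mp h3 with h6 | h6
    · exact absurd h6 h5
    · exact h6
  have h7 : comp (conv e) e = conv e := by
    rcases (conv_atom h).le_iff.mp h4 with h6 | h6
    · exact absurd h6 h5
    · exact h6
  have h8 : conv e = e := h7.symm.trans h6
  refine ⟨h8, ?_⟩
  rw [h8] at h6
  exact h6

/-- Composition with a bijective element preserves atoms. -/
theorem bij_atom {f x : B} (h1 : comp f (conv f) ≤ ident) (h2 : comp (comp (conv f) f) x = x)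
    (hx : IsAtom x) : IsAtom (comp f x) := by
  have h0 : comp f x ≠ ⊥ := by
    intro h
    apply hx.1
    rw [← h2, comp_assoc, h, comp_bot]
  refine (isAtom_iff_le_of_ge.mpr ⟨h0, ?_⟩)
  intro y hy hle
  have h3 : comp (conv f) y ≤ x := by
    have := comp_mono_right hle (conv f)
    rwa [← comp_assoc, h2] at this
  have h4 : comp (conv f) y ⊓ x ≠ ⊥ := by
    apply cyc1
    rw [inf_eq_right.mpr hle]
    exact hy
  have h5 : comp (conv f) y = x := by
    rcases hx.le_iff.mp h3 with h6 | h6
    · rw [h6] at h4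
      simp at h4
    · exact h6
  rw [← h5, ← comp_assoc]
  have := comp_mono_left h1 y
  rwa [ident_comp] at this

theorem comp_right_sub {e f : B} (he : e ≤ ident) (hce : conv e = e) (h : f ≤ comp ⊤ e) :
    comp f e = f := by
  apply le_antisymm
  · have := comp_mono_right he f
    rwa [comp_ident] at this
  · by_contra hn
    have hg : f ⊓ (comp f e)ᶜ ≠ ⊥ := by
      intro h'
      apply hn
      have := disjoint_iff.mpr h'
      rwa [disjoint_compl_right_iff] at this
    set g := f ⊓ (comp f e)ᶜ with hgdef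
    have h1 : comp ⊤ e ⊓ g ≠ ⊥ := by
      rw [inf_eq_right.mpr (inf_le_left.trans h)]
      exact hg
    have h2 := cyc2 h1
    rw [hce, inf_top_eq] at h2
    apply h2
    have h3 : comp g e ≤ (comp f e)ᶜ := by
      have := comp_mono_right he g
      rw [comp_ident] at this
      exact this.trans inf_le_right
    have h4 : comp g e ≤ comp f e := comp_mono_left inf_le_left e
    exact le_bot_iff.mp ((le_inf h4 h3).trans (by simp))

theorem comp_left_sub {e f : B} (he : e ≤ ident) (hce : conv e = e) (h : f ≤ comp e ⊤) :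
    comp e f = f := by
  have h1 : conv f ≤ comp ⊤ e := by
    have := conv_mono h
    rwa [conv_comp, conv_top, hce] at this
  have h2 := congrArg conv (comp_right_sub he hce h1)
  rwa [conv_comp, conv_conv, hce] at h2

/-- The range of an atom. -/
theorem range_atom (hat : ∀ x : B, x ≠ ⊥ → ∃ a, IsAtom a ∧ a ≤ x) {a : B} (ha : IsAtom a) :
    ∃ e, IsAtom e ∧ e ≤ ident ∧ e ≤ comp (conv a) a ∧ comp a e = a := by
  have h1 : comp a ident ⊓ a ≠ ⊥ := by
    rw [comp_ident]; simpa using ha.1
  obtain ⟨e, he, hle⟩ := hat _ (cyc1 h1)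
  have h2 : e ≤ comp (conv a) a := hle.trans inf_le_left
  have h3 : e ≤ ident := hle.trans inf_le_right
  refine ⟨e, he, h3, h2, ?_⟩
  have h4 : comp (conv a) a ⊓ e ≠ ⊥ := atom_inf he h2
  have h5 : comp a e ⊓ a ≠ ⊥ := cyc1' h4
  have h6 : a ≤ comp a e := atom_le ha h5
  refine le_antisymm ?_ h6
  have := comp_mono_right h3 a
  rwa [comp_ident] at this

end Q204.RA
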