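import Pool.Agent.Q204.RA.FO

/-!
# Members of the class are finite or uncountable; the class is not axiomatizable
-/

namespace Q204.RA

universe u

open RelAlg FirstOrder Language Cardinal

/-- A countable `Rel(A)` is finite. -/
theorem rel_card {G : Type} [Group G] [Finite G] {A : Type u} [MulAction G A]
    (h : Countable (Rel G A)) : Finite (Rel G A) := by
  by_cases hA : Finite A
  · exact inferInstance
  · exfalso
    rw [not_finite_iff_infinite] at hA
    let Q := MulAction.orbitRel.Quotient G A
    have hQ : Infinite Q := by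
      by_contra hQ
      rw [not_infinite_iff_finite] at hQ
      apply not_finite_iff_infinite.mpr hA
      choose f hf using fun q : Q => Quotient.exists_rep q
      apply Finite.of_surjective (fun x : G × Q => x.1 • f x.2)
      intro a
      have h1 : (Quotient.mk _ (f (Quotient.mk _ a)) : Q) = Quotient.mk _ a := hf _
      have h2 := Quotient.exact h1
      have h3 : f (Quotient.mk _ a) ∈ MulAction.orbit G a := h2
      obtain ⟨g, hg⟩ := h3
      refine ⟨(g⁻¹, Quotient.mk _ a), ?_⟩
      simp only at hg ⊢
      rw [← hg]
      simp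
    let F : Set Q → Rel G A := fun S => ⟨{q | (Quotient.mk _ q.1 : Q) ∈ S}, by
      intro g x y h
      change (Quotient.mk _ (g • x) : Q) ∈ S
      have : (Quotient.mk _ (g • x) : Q) = Quotient.mk _ x := Quotient.sound ⟨g, rfl⟩
      rw [this]
      exact h⟩
    have hF : Function.Injective F := by
      intro S T hST
      ext q
      obtain ⟨a, rfl⟩ := Quotient.exists_rep q
      have h1 : (a, a) ∈ (F S).1 ↔ (a, a) ∈ (F T).1 := by rw [hST]
      exact h1
    have h1 : Countable (Set Q) := hF.countable
    have h2 : #(Set Q) ≤ ℵ₀ := Cardinal.mk_le_aleph0_iff.mpr h1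
    rw [Cardinal.mk_set] at h2
    exact absurd (h2.trans (Cardinal.aleph0_le_mk Q)) (not_le.mpr (Cardinal.cantor _))

/-- A countable member of `K_p` is finite. -/
theorem inK_card {p : ℕ} [Fact p.Prime] {B : Type u} [RelAlg B] (h : InK p B)
    (hc : Countable B) : Finite B := by
  obtain ⟨A, _, _, ⟨e⟩⟩ := h
  have h1 : Countable (Rel (Multiplicative (ZMod p)) A) := e.toEquiv.symm.injective.countable
  have h2 := rel_card h1
  exact Finite.of_equiv _ e.toEquiv.symm

section sub
variable {M : Type u} [RelAlg M] (S : LRA.Substructure M)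

/-- The Boolean subalgebra carried by a substructure. -/
def subBool : BooleanSubalgebra M where
  carrier := S
  supClosed' := by
    intro x hx y hy
    have := S.fun_mem (Op.join : LRA.Functions 2) ![x, y] (by
      intro i; fin_cases i <;> assumption)
    exact this
  infClosed' := by
    intro x hx y hy
    have := S.fun_mem (Op.meet : LRA.Functions 2) ![x, y] (by
      intro i; fin_cases i <;> assumption)
    exact this
  compl_mem' := by
    intro x hx
    have := S.fun_mem (Op.neg : LRA.Functions 1) ![x] (by
      intro i; fin_cases i; assumption)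
    exact this
  bot_mem' := by
    have := S.fun_mem (Op.zero : LRA.Functions 0) ![] (by
      intro i; exact i.elim0)
    exact this

/-- A substructure of a relation algebra is a relation algebra. -/
instance subRA : RelAlg (subBool S) where
  comp x y := ⟨comp x.1 y.1, S.fun_mem (Op.comp : LRA.Functions 2) ![x.1, y.1] (by
      intro i; fin_cases i; exacts [x.2, y.2])⟩
  conv x := ⟨conv x.1, S.fun_mem (Op.conv : LRA.Functions 1) ![x.1] (by
      intro i; fin_cases i; exact x.2)⟩
  ident := ⟨ident, S.fun_mem (Op.ident : LRA.Functions 0) ![] (by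
      intro i; exact i.elim0)⟩
  comp_assoc x y z := Subtype.ext (comp_assoc x.1 y.1 z.1)
  sup_comp x y z := Subtype.ext (sup_comp x.1 y.1 z.1)
  comp_ident x := Subtype.ext (comp_ident x.1)
  conv_conv x := Subtype.ext (conv_conv x.1)
  conv_sup x y := Subtype.ext (conv_sup x.1 y.1)
  conv_comp x y := Subtype.ext (conv_comp x.1 y.1)
  tarski x y := Subtype.ext (tarski x.1 y.1)

/-- The substructure and the relation algebra on it are the same structure. -/
def subEquiv : LRA.Equiv S (subBool S) where
  toFun x := ⟨x.1, x.2⟩
  invFun x := ⟨x.1, x.2⟩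
  left_inv _ := rfl
  right_inv _ := rfl
  map_fun' := by
    intro n f v
    apply Subtype.ext
    cases f <;> rfl
  map_rel' := by
    intro n r
    exact (nomatch (r : Empty))

end sub

theorem card_LRA : LRA.card ≤ ℵ₀ := by
  have h1 : Countable (Σ n, LRA.Functions n) := by
    have : Function.Injective (fun x : (Σ n, LRA.Functions n) =>
        (match x with
        | ⟨_, Op.join⟩ => 0
        | ⟨_, Op.meet⟩ => 1
        | ⟨_, Op.neg⟩ => 2
        | ⟨_, Op.zero⟩ => 3
        | ⟨_, Op.one⟩ => 4
        | ⟨_, Op.comp⟩ => 5
        | ⟨_, Op.conv⟩ => 6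
        | ⟨_, Op.ident⟩ => 7 : ℕ)) := by
      rintro ⟨_, _ | _ | _ | _ | _ | _ | _ | _⟩ ⟨_, _ | _ | _ | _ | _ | _ | _ | _⟩ h <;>
        first | rfl | (simp at h)
    exact this.countable
  have h2 : Countable (Σ n, LRA.Relations n) := by
    have : IsEmpty (Σ n, LRA.Relations n) := ⟨fun x => (nomatch (x.2 : Empty))⟩
    infer_instance
  have h3 : Countable LRA.Symbols := by
    unfold FirstOrder.Language.Symbols
    infer_instance
  exact Cardinal.mk_le_aleph0_iff.mpr h3

theorem not_axiomatizable (p : ℕ) [Fact p.Prime] :
    ¬ ∃ T : LRA.Theory, ∀ (B : Type u) [RelAlg B], InK p B ↔ B ⊨ T := by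
  rintro ⟨T, hT⟩
  let A : Type u := ULift.{u} ℕ
  let _ : MulAction (Multiplicative (ZMod p)) A :=
    { smul := fun _ a => a
      one_smul := fun _ => rfl
      mul_smul := fun _ _ _ => rfl }
  let M := Rel (Multiplicative (ZMod p)) A
  have hM : InK p M := ⟨A, inferInstance, inferInstance, ⟨FirstOrder.Language.Equiv.refl LRA M⟩⟩
  have hMT : M ⊨ T := (hT M).mp hM
  have hinf : Infinite M := by
    let F : ℕ → M := fun n => ⟨{q | q.1 = ⟨n⟩}, fun _ _ _ h => h⟩
    apply Infinite.of_injective F
    intro n m h
    have h1 : ((⟨n⟩ : A), (⟨n⟩ : A)) ∈ (F m).1 := by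
      rw [← h]
      exact rfl
    have h2 : (⟨n⟩ : A) = ⟨m⟩ := h1
    exact congrArg ULift.down h2
  obtain ⟨S, _, hS⟩ := exists_elementarySubstructure_card_eq LRA (∅ : Set M) (ℵ₀ : Cardinal.{0})
    le_rfl (by simp) (by
      simpa using card_LRA) (by
      have := Cardinal.aleph0_le_mk M
      simpa using this)
  have hS' : #S = ℵ₀ := by simpa using hS
  have hc : Countable S := Cardinal.mk_le_aleph0_iff.mp hS'.le
  have hSinf : Infinite S := Cardinal.infinite_iff.mpr hS'.ge
  have hST : S ⊨ T := (S.theory_model_iff T).mpr hMT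
  let e := subEquiv S.toSubstructure
  have hN : (subBool S.toSubstructure) ⊨ T := by
    rw [Theory.model_iff] at hST ⊢
    intro φ hφ
    exact (StrongHomClass.realize_sentence e φ).mp (hST φ hφ)
  have hK : InK p (subBool S.toSubstructure) := (hT _).mpr hN
  have hc' : Countable (subBool S.toSubstructure) := by
    have : Function.Injective e.toEquiv.symm := e.toEquiv.symm.injective
    exact this.countable
  have hfin := inK_card hK hc'
  have : Finite S := Finite.of_equiv _ e.toEquiv.symm
  exact not_finite_iff_infinite.mpr hSinf this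

end Q204.RA
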