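import Mathlib

/-!
# Relation algebras of `ℤ_p`-sets: definitions

Relation algebras in Tarski's sense, their first-order language, and the relation algebra of all
compatible binary relations on a `G`-set.
-/

namespace Q204.RA

universe u v

/-- A relation algebra in Tarski's sense. `comp x y` is `x ; y`, `conv x` is the converse,
`ident` is `1'`. -/
class RelAlg (B : Type u) extends BooleanAlgebra B where
  comp : B → B → B
  conv : B → B
  ident : B
  comp_assoc : ∀ x y z : B, comp (comp x y) z = comp x (comp y z)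
  sup_comp : ∀ x y z : B, comp (x ⊔ y) z = comp x z ⊔ comp y z
  comp_ident : ∀ x : B, comp x ident = x
  conv_conv : ∀ x : B, conv (conv x) = x
  conv_sup : ∀ x y : B, conv (x ⊔ y) = conv x ⊔ conv y
  conv_comp : ∀ x y : B, conv (comp x y) = comp (conv y) (conv x)
  tarski : ∀ x y : B, comp (conv x) (comp x y)ᶜ ⊔ yᶜ = yᶜ

/-- The operation symbols `+, ·, ⁻, 0, 1, ;, ˘, 1'`. -/
inductive Op : ℕ → Type
  | join : Op 2
  | meet : Op 2
  | neg : Op 1
  | zero : Op 0
  | one : Op 0
  | comp : Op 2
  | conv : Op 1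
  | ident : Op 0

/-- The first-order signature of relation algebras. -/
def LRA : FirstOrder.Language.{0, 0} := ⟨Op, fun _ => Empty⟩

/-- The interpretation of the signature in a relation algebra. -/
def opMap {B : Type u} [RelAlg B] : ∀ {n : ℕ}, Op n → (Fin n → B) → B
  | _, Op.join, v => v 0 ⊔ v 1
  | _, Op.meet, v => v 0 ⊓ v 1
  | _, Op.neg, v => (v 0)ᶜ
  | _, Op.zero, _ => ⊥
  | _, Op.one, _ => ⊤
  | _, Op.comp, v => RelAlg.comp (v 0) (v 1)
  | _, Op.conv, v => RelAlg.conv (v 0)
  | _, Op.ident, _ => RelAlg.ident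

instance instStructure (B : Type u) [RelAlg B] : LRA.Structure B where
  funMap := fun {_} f v => opMap f v
  RelMap := fun {_} r _ => (nomatch (r : Empty))

/-- The compatible binary relations on a `G`-set `A`, as a Boolean subalgebra of the power set
of `A × A`. -/
def relSub (G : Type u) (A : Type v) [Group G] [MulAction G A] :
    BooleanSubalgebra (Set (A × A)) where
  carrier := {R | ∀ (g : G) (x y : A), (x, y) ∈ R → (g • x, g • y) ∈ R}
  supClosed' := by
    intro R hR S hS g x y h
    rcases h with h | h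
    · exact Or.inl (hR g x y h)
    · exact Or.inr (hS g x y h)
  infClosed' := by
    intro R hR S hS g x y h
    exact ⟨hR g x y h.1, hS g x y h.2⟩
  compl_mem' := by
    intro R hR g x y h h'
    apply h
    have := hR g⁻¹ _ _ h'
    simpa using this
  bot_mem' := by
    intro g x y h
    exact h.elim

/-- The type of compatible relations on the `G`-set `A`. -/
abbrev Rel (G : Type u) (A : Type v) [Group G] [MulAction G A] : Type v := relSub G A

section
variable (G : Type u) (A : Type v) [Group G] [MulAction G A]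

/-- The relation algebra `Rel(A)` of compatible relations. -/
instance instRel : RelAlg (Rel G A) where
  comp R S := ⟨{q | ∃ z, (q.1, z) ∈ R.1 ∧ (z, q.2) ∈ S.1}, by
    rintro g x y ⟨z, h1, h2⟩
    exact ⟨g • z, R.2 g _ _ h1, S.2 g _ _ h2⟩⟩
  conv R := ⟨{q | (q.2, q.1) ∈ R.1}, by
    intro g x y h
    exact R.2 g _ _ h⟩
  ident := ⟨{q | q.1 = q.2}, by
    intro g x y h
    have h' : x = y := h
    change g • x = g • y
    rw [h']⟩
  comp_assoc := by
    intro R S T
    apply Subtype.ext
    ext ⟨x, y⟩
    constructor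
    · rintro ⟨z, ⟨w, h1, h2⟩, h3⟩
      exact ⟨w, h1, z, h2, h3⟩
    · rintro ⟨w, h1, z, h2, h3⟩
      exact ⟨z, ⟨w, h1, h2⟩, h3⟩
  sup_comp := by
    intro R S T
    apply Subtype.ext
    ext ⟨x, y⟩
    constructor
    · rintro ⟨z, h1 | h1, h2⟩
      · exact Or.inl ⟨z, h1, h2⟩
      · exact Or.inr ⟨z, h1, h2⟩
    · rintro (⟨z, h1, h2⟩ | ⟨z, h1, h2⟩)
      · exact ⟨z, Or.inl h1, h2⟩
      · exact ⟨z, Or.inr h1, h2⟩
  comp_ident := by
    intro R
    apply Subtype.ext
    ext ⟨x, y⟩
    constructor
    · rintro ⟨z, h1, h2⟩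
      have h3 : z = y := h2
      subst h3
      exact h1
    · intro h
      exact ⟨y, h, rfl⟩
  conv_conv := by
    intro R
    apply Subtype.ext
    ext ⟨x, y⟩
    exact Iff.rfl
  conv_sup := by
    intro R S
    apply Subtype.ext
    ext ⟨x, y⟩
    exact Iff.rfl
  conv_comp := by
    intro R S
    apply Subtype.ext
    ext ⟨x, y⟩
    constructor
    · rintro ⟨z, h1, h2⟩
      exact ⟨z, h2, h1⟩
    · rintro ⟨z, h1, h2⟩
      exact ⟨z, h2, h1⟩
  tarski := by
    intro R S
    apply Subtype.ext
    ext ⟨x, y⟩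
    constructor
    · rintro (⟨z, h1, h2⟩ | h)
      · intro h3
        exact h2 ⟨x, h1, h3⟩
      · exact h
    · intro h
      exact Or.inr h

end

open FirstOrder Language in
/-- `B` is isomorphic to `Rel(A)` for some non-empty set `A` with an action of the cyclic group
of order `p` (not necessarily faithful). -/
def InK (p : ℕ) (B : Type u) [RelAlg B] : Prop :=
  ∃ (A : Type u) (_ : Nonempty A) (_ : MulAction (Multiplicative (ZMod p)) A),
    Nonempty (B ≃[LRA] Rel (Multiplicative (ZMod p)) A)

end Q204.RA
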