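import Pool.Agent.Q204.RA.Nec

/-!
# First-order definability of the conditions
-/

namespace Q204.RA

universe u

open RelAlg FirstOrder Language

/-- term-definable operations -/
def Tm {α : Type} (f : ∀ (B : Type u) [RelAlg B], (α → B) → B) : Prop :=
  ∃ t : LRA.Term α, ∀ (B : Type u) [RelAlg B] (v : α → B), t.realize v = f B v

/-- first-order definable predicates -/
def FO {α : Type} (P : ∀ (B : Type u) [RelAlg B], (α → B) → Prop) : Prop :=
  ∃ φ : LRA.Formula α, ∀ (B : Type u) [RelAlg B] (v : α → B), φ.Realize v ↔ P B v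

section
variable {α : Type}

theorem Tm.var (i : α) : Tm.{u} (fun B _ (v : α → B) => v i) := ⟨Term.var i, fun _ _ _ => rfl⟩

theorem Tm.comp {f g : ∀ (B : Type u) [RelAlg B], (α → B) → B} (hf : Tm f) (hg : Tm g) :
    Tm (fun B _ v => RelAlg.comp (f B v) (g B v)) := by
  obtain ⟨t, ht⟩ := hf
  obtain ⟨s, hs⟩ := hg
  refine ⟨Term.func (L := LRA) (l := 2) Op.comp ![t, s], fun B _ v => ?_⟩
  change RelAlg.comp (Term.realize v t) (Term.realize v s) = RelAlg.comp (f B v) (g B v)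
  rw [ht, hs]

theorem Tm.sup {f g : ∀ (B : Type u) [RelAlg B], (α → B) → B} (hf : Tm f) (hg : Tm g) :
    Tm (fun B _ v => f B v ⊔ g B v) := by
  obtain ⟨t, ht⟩ := hf
  obtain ⟨s, hs⟩ := hg
  refine ⟨Term.func (L := LRA) (l := 2) Op.join ![t, s], fun B _ v => ?_⟩
  change (Term.realize v t) ⊔ (Term.realize v s) = f B v ⊔ g B v
  rw [ht, hs]

theorem Tm.conv {f : ∀ (B : Type u) [RelAlg B], (α → B) → B} (hf : Tm f) :
    Tm (fun B _ v => RelAlg.conv (f B v)) := by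
  obtain ⟨t, ht⟩ := hf
  refine ⟨Term.func (L := LRA) (l := 1) Op.conv ![t], fun B _ v => ?_⟩
  change RelAlg.conv (Term.realize v t) = RelAlg.conv (f B v)
  rw [ht]

theorem Tm.bot : Tm.{u} (fun B _ (_ : α → B) => (⊥ : B)) := by
  refine ⟨Term.func (L := LRA) (l := 0) Op.zero ![], fun B _ v => ?_⟩
  rfl

theorem Tm.top : Tm.{u} (fun B _ (_ : α → B) => (⊤ : B)) := by
  refine ⟨Term.func (L := LRA) (l := 0) Op.one ![], fun B _ v => ?_⟩
  rfl

theorem Tm.ident : Tm.{u} (fun B _ (_ : α → B) => (RelAlg.ident : B)) := by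
  refine ⟨Term.func (L := LRA) (l := 0) Op.ident ![], fun B _ v => ?_⟩
  rfl

theorem FO.eq {f g : ∀ (B : Type u) [RelAlg B], (α → B) → B} (hf : Tm f) (hg : Tm g) :
    FO (fun B _ v => f B v = g B v) := by
  obtain ⟨t, ht⟩ := hf
  obtain ⟨s, hs⟩ := hg
  refine ⟨t.equal s, fun B _ v => ?_⟩
  rw [Formula.realize_equal, ht, hs]

theorem FO.not {P : ∀ (B : Type u) [RelAlg B], (α → B) → Prop} (h : FO P) :
    FO (fun B _ v => ¬ P B v) := by
  obtain ⟨φ, hφ⟩ := h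
  refine ⟨φ.not, fun B _ v => ?_⟩
  rw [Formula.realize_not, hφ]

theorem FO.and {P Q : ∀ (B : Type u) [RelAlg B], (α → B) → Prop} (h : FO P) (h' : FO Q) :
    FO (fun B _ v => P B v ∧ Q B v) := by
  obtain ⟨φ, hφ⟩ := h
  obtain ⟨ψ, hψ⟩ := h'
  refine ⟨φ ⊓ ψ, fun B _ v => ?_⟩
  rw [Formula.realize_inf, hφ, hψ]

theorem FO.or {P Q : ∀ (B : Type u) [RelAlg B], (α → B) → Prop} (h : FO P) (h' : FO Q) :
    FO (fun B _ v => P B v ∨ Q B v) := by
  obtain ⟨φ, hφ⟩ := h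
  obtain ⟨ψ, hψ⟩ := h'
  refine ⟨φ ⊔ ψ, fun B _ v => ?_⟩
  rw [Formula.realize_sup, hφ, hψ]

theorem FO.imp {P Q : ∀ (B : Type u) [RelAlg B], (α → B) → Prop} (h : FO P) (h' : FO Q) :
    FO (fun B _ v => P B v → Q B v) := by
  obtain ⟨φ, hφ⟩ := h
  obtain ⟨ψ, hψ⟩ := h'
  refine ⟨φ.imp ψ, fun B _ v => ?_⟩
  rw [Formula.realize_imp, hφ, hψ]

theorem FO.const (p : Prop) : FO.{u} (fun B _ (_ : α → B) => p) := by
  by_cases hp : p
  · refine ⟨⊤, fun B _ v => ?_⟩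
    rw [Formula.realize_top]
    simp [hp]
  · refine ⟨⊥, fun B _ v => ?_⟩
    rw [Formula.realize_bot]
    simp [hp]

theorem FO.allBlock {β : Type} [Finite β]
    {P : ∀ (B : Type u) [RelAlg B], (β → B) → (α → B) → Prop}
    (h : FO (α := α ⊕ β) (fun B _ w => P B (fun j => w (Sum.inr j)) (fun i => w (Sum.inl i)))) :
    FO (fun B _ v => ∀ a : β → B, P B a v) := by
  obtain ⟨φ, hφ⟩ := h
  refine ⟨φ.iAlls β, fun B _ v => ?_⟩
  rw [Formula.realize_iAlls]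
  constructor
  · intro h a
    exact (hφ B _).mp (h a)
  · intro h a
    exact (hφ B _).mpr (h a)

theorem FO.exBlock {β : Type} [Finite β]
    {P : ∀ (B : Type u) [RelAlg B], (β → B) → (α → B) → Prop}
    (h : FO (α := α ⊕ β) (fun B _ w => P B (fun j => w (Sum.inr j)) (fun i => w (Sum.inl i)))) :
    FO (fun B _ v => ∃ a : β → B, P B a v) := by
  obtain ⟨φ, hφ⟩ := h
  refine ⟨φ.iExs β, fun B _ v => ?_⟩
  rw [Formula.realize_iExs]
  constructor
  · rintro ⟨a, h⟩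
    exact ⟨a, (hφ B _).mp h⟩
  · rintro ⟨a, h⟩
    exact ⟨a, (hφ B _).mpr h⟩

theorem FO.all {P : ∀ (B : Type u) [RelAlg B], B → (α → B) → Prop}
    (h : FO (α := α ⊕ Unit) (fun B _ w => P B (w (Sum.inr ())) (fun i => w (Sum.inl i)))) :
    FO (fun B _ v => ∀ x : B, P B x v) := by
  obtain ⟨φ, hφ⟩ := FO.allBlock (β := Unit) (P := fun B _ a v => P B (a ()) v) h
  refine ⟨φ, fun B _ v => ?_⟩
  rw [hφ]
  exact ⟨fun h x => h (fun _ => x), fun h a => h (a ())⟩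

theorem FO.ex {P : ∀ (B : Type u) [RelAlg B], B → (α → B) → Prop}
    (h : FO (α := α ⊕ Unit) (fun B _ w => P B (w (Sum.inr ())) (fun i => w (Sum.inl i)))) :
    FO (fun B _ v => ∃ x : B, P B x v) := by
  obtain ⟨φ, hφ⟩ := FO.exBlock (β := Unit) (P := fun B _ a v => P B (a ()) v) h
  refine ⟨φ, fun B _ v => ?_⟩
  rw [hφ]
  exact ⟨fun ⟨a, h⟩ => ⟨a (), h⟩, fun ⟨x, h⟩ => ⟨fun _ => x, h⟩⟩

theorem FO.allFin {β : Type} [Finite β] {P : β → ∀ (B : Type u) [RelAlg B], (α → B) → Prop}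
    (h : ∀ i, FO (P i)) : FO (fun B _ v => ∀ i, P i B v) := by
  choose φ hφ using h
  refine ⟨Formula.iInf φ, fun B _ v => ?_⟩
  rw [Formula.realize_iInf]
  exact forall_congr' fun i => hφ i B v

theorem FO.exFin {β : Type} [Finite β] {P : β → ∀ (B : Type u) [RelAlg B], (α → B) → Prop}
    (h : ∀ i, FO (P i)) : FO (fun B _ v => ∃ i, P i B v) := by
  choose φ hφ using h
  refine ⟨Formula.iSup φ, fun B _ v => ?_⟩
  rw [Formula.realize_iSup]
  exact exists_congr fun i => hφ i B v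

theorem FO.le {f g : ∀ (B : Type u) [RelAlg B], (α → B) → B} (hf : Tm f) (hg : Tm g) :
    FO (fun B _ v => Le (f B v) (g B v)) := FO.eq (hf.sup hg) hg

theorem Tm.sq {f g : ∀ (B : Type u) [RelAlg B], (α → B) → B} (hf : Tm f) (hg : Tm g) :
    Tm (fun B _ v => RA.sq (f B v) (g B v)) := (hf.comp Tm.top).comp hg

/-- weakening of a term. -/
theorem Tm.lift {β : Type} {f : ∀ (B : Type u) [RelAlg B], (α → B) → B} (hf : Tm f) :
    Tm (α := α ⊕ β) (fun B _ w => f B (fun i => w (Sum.inl i))) := by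
  obtain ⟨t, ht⟩ := hf
  refine ⟨t.relabel Sum.inl, fun B _ v => ?_⟩
  rw [Term.realize_relabel, ht]
  rfl

theorem FO.at {f : ∀ (B : Type u) [RelAlg B], (α → B) → B} (hf : Tm f) :
    FO (fun B _ v => At (f B v)) := by
  refine FO.and (FO.not (FO.eq hf Tm.bot)) ?_
  refine FO.all (P := fun B _ y v => Le y (f B v) → y = ⊥ ∨ y = f B v) ?_
  exact FO.imp (FO.le (Tm.var _) hf.lift)
    (FO.or (FO.eq (Tm.var _) Tm.bot) (FO.eq (Tm.var _) hf.lift))

theorem FO.iat {f : ∀ (B : Type u) [RelAlg B], (α → B) → B} (hf : Tm f) :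
    FO (fun B _ v => IAt (f B v)) := FO.and (FO.at hf) (FO.le hf Tm.ident)

theorem FO.ptype (p : ℕ) {f : ∀ (B : Type u) [RelAlg B], (α → B) → B} (hf : Tm f) :
    FO (fun B _ v => PType p (f B v)) := by
  refine FO.exBlock (β := Fin p) (P := fun B _ a v => (∀ i j, i = j ∨ ¬ a i = a j) ∧
    (∀ i, At (a i) ∧ Le (a i) (RA.sq (f B v) (f B v)) ∧ RelAlg.comp (a i) (RelAlg.conv (a i)) =
      f B v ∧ RelAlg.comp (RelAlg.conv (a i)) (a i) = f B v) ∧
    ∀ x, At x → Le x (RA.sq (f B v) (f B v)) → ∃ i, x = a i) ?_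
  refine FO.and ?_ (FO.and ?_ ?_)
  · refine FO.allFin fun i => FO.allFin fun j => ?_
    exact FO.or (FO.const _) (FO.not (FO.eq (Tm.var _) (Tm.var _)))
  · refine FO.allFin fun i => ?_
    have hi : Tm.{u} (fun B _ (w : α ⊕ Fin p → B) => w (Sum.inr i)) := Tm.var _
    exact FO.and (FO.at hi) (FO.and (FO.le hi (hf.lift.sq hf.lift))
      (FO.and (FO.eq (hi.comp hi.conv) hf.lift) (FO.eq (hi.conv.comp hi) hf.lift)))
  · refine FO.all (P := fun B _ x (w : α ⊕ Fin p → B) => At x →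
      Le x (RA.sq (f B (fun i => w (Sum.inl i))) (f B (fun i => w (Sum.inl i)))) →
      ∃ i, x = w (Sum.inr i)) ?_
    refine FO.imp (FO.at (Tm.var _)) (FO.imp (FO.le (Tm.var _) ?_) ?_)
    · exact (hf.lift.sq hf.lift).lift
    · refine FO.exFin fun i => ?_
      exact FO.eq (Tm.var _) (Tm.var _)

theorem FO.good (p : ℕ) : FO.{u} (α := Empty) (fun B _ _ => Good p B) := by
  refine FO.and (FO.not (FO.eq Tm.bot Tm.top)) (FO.and ?_ (FO.and ?_ (FO.and ?_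
    (FO.and ?_ ?_))))
  · refine FO.all (P := fun B _ x _ => ¬ x = ⊥ → RelAlg.comp (RelAlg.comp ⊤ x) ⊤ = ⊤) ?_
    exact FO.imp (FO.not (FO.eq (Tm.var _) Tm.bot))
      (FO.eq ((Tm.top.comp (Tm.var _)).comp Tm.top) Tm.top)
  · refine FO.all (P := fun B _ x _ => ¬ x = ⊥ → ∃ a, At a ∧ Le a x) ?_
    refine FO.imp (FO.not (FO.eq (Tm.var _) Tm.bot)) ?_
    refine FO.ex (P := fun B _ a (w : Empty ⊕ Unit → B) => At a ∧ Le a (w (Sum.inr ()))) ?_
    exact FO.and (FO.at (Tm.var _)) (FO.le (Tm.var _) (Tm.var _))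
  · refine FO.all (P := fun B _ e _ => IAt e → RA.sq e e = e ∨ PType p e) ?_
    exact FO.imp (FO.iat (Tm.var _)) (FO.or (FO.eq ((Tm.var _).sq (Tm.var _)) (Tm.var _))
      (FO.ptype p (Tm.var _)))
  · refine FO.all (P := fun B _ e _ => ∀ e' : B, IAt e → IAt e' → PType p e → PType p e' →
      ∃ f, Le f (RA.sq e e') ∧ RelAlg.comp f (RelAlg.conv f) = e ∧
        RelAlg.comp (RelAlg.conv f) f = e') ?_
    refine FO.all (P := fun B _ e' (w : Empty ⊕ Unit → B) => IAt (w (Sum.inr ())) → IAt e' →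
      PType p (w (Sum.inr ())) → PType p e' →
      ∃ f, Le f (RA.sq (w (Sum.inr ())) e') ∧ RelAlg.comp f (RelAlg.conv f) = w (Sum.inr ()) ∧
        RelAlg.comp (RelAlg.conv f) f = e') ?_
    refine FO.imp (FO.iat (Tm.var _)) (FO.imp (FO.iat (Tm.var _))
      (FO.imp (FO.ptype p (Tm.var _)) (FO.imp (FO.ptype p (Tm.var _)) ?_)))
    refine FO.ex (P := fun B _ f (w : (Empty ⊕ Unit) ⊕ Unit → B) =>
      Le f (RA.sq (w (Sum.inl (Sum.inr ()))) (w (Sum.inr ()))) ∧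
      RelAlg.comp f (RelAlg.conv f) = w (Sum.inl (Sum.inr ())) ∧
        RelAlg.comp (RelAlg.conv f) f = w (Sum.inr ())) ?_
    refine FO.and (FO.le (Tm.var _) ((Tm.var _).sq (Tm.var _))) (FO.and ?_ ?_)
    · exact FO.eq ((Tm.var _).comp (Tm.var _).conv) (Tm.var _)
    · exact FO.eq ((Tm.var _).conv.comp (Tm.var _)) (Tm.var _)
  · refine FO.all (P := fun B _ e _ => ∀ e' : B, IAt e → IAt e' → RA.sq e e = e →
      At (RA.sq e e')) ?_
    refine FO.all (P := fun B _ e' (w : Empty ⊕ Unit → B) => IAt (w (Sum.inr ())) → IAt e' →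
      RA.sq (w (Sum.inr ())) (w (Sum.inr ())) = w (Sum.inr ()) →
      At (RA.sq (w (Sum.inr ())) e')) ?_
    exact FO.imp (FO.iat (Tm.var _)) (FO.imp (FO.iat (Tm.var _))
      (FO.imp (FO.eq ((Tm.var _).sq (Tm.var _)) (Tm.var _))
        (FO.at ((Tm.var _).sq (Tm.var _)))))

end

/-- The conditions are expressed by one first-order sentence. -/
theorem good_sentence (p : ℕ) : ∃ σ : LRA.Sentence, ∀ (B : Type u) [RelAlg B],
    B ⊨ σ ↔ Good p B := by
  obtain ⟨φ, hφ⟩ := FO.good.{u} p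
  exact ⟨φ, fun B _ => hφ B _⟩

end Q204.RA
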