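import Pool.Agent.Q204.RA.Rep

/-!
# The finitely many first-order conditions, and the representation theorem
-/

namespace Q204.RA

universe u

open RelAlg

section
variable {B : Type u} [RelAlg B]

/-- order, as an equation. -/
def Le (x y : B) : Prop := x ⊔ y = y

theorem le_iff {x y : B} : Le x y ↔ x ≤ y := sup_eq_right

/-- being an atom. -/
def At (a : B) : Prop := ¬ a = ⊥ ∧ ∀ y : B, Le y a → y = ⊥ ∨ y = a

theorem at_iff {a : B} : At a ↔ IsAtom a := by
  constructor
  · rintro ⟨h1, h2⟩
    refine isAtom_iff_le_of_ge.mpr ⟨h1, ?_⟩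
    intro b hb hle
    rcases h2 b (le_iff.mpr hle) with h | h
    · exact absurd h hb
    · exact h.symm.le
  · intro h
    refine ⟨h.1, ?_⟩
    intro y hy
    exact h.le_iff.mp (le_iff.mp hy)

/-- identity atom -/
def IAt (e : B) : Prop := At e ∧ Le e ident

/-- the square on `e`, more generally the rectangle `e ; 1 ; e'`. -/
def sq (e e' : B) : B := comp (comp e ⊤) e'

/-- `e` is of cyclic type: below `e;1;e` there are exactly `p` atoms and all are bijections. -/
def PType (p : ℕ) (e : B) : Prop :=
  ∃ a : Fin p → B, (∀ i j, i = j ∨ ¬ a i = a j) ∧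
    (∀ i, At (a i) ∧ Le (a i) (sq e e) ∧ comp (a i) (conv (a i)) = e ∧
      comp (conv (a i)) (a i) = e) ∧
    ∀ x, At x → Le x (sq e e) → ∃ i, x = a i

/-- The conditions. -/
def Good (p : ℕ) (B : Type u) [RelAlg B] : Prop :=
  (¬ (⊥ : B) = ⊤) ∧
  (∀ x : B, ¬ x = ⊥ → comp (comp ⊤ x) ⊤ = ⊤) ∧
  (∀ x : B, ¬ x = ⊥ → ∃ a, At a ∧ Le a x) ∧
  (∀ e : B, IAt e → sq e e = e ∨ PType p e) ∧
  (∀ e e' : B, IAt e → IAt e' → PType p e → PType p e' →
    ∃ f, Le f (sq e e') ∧ comp f (conv f) = e ∧ comp (conv f) f = e') ∧
  (∀ e e' : B, IAt e → IAt e' → sq e e = e → At (sq e e'))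

end

/-! ### Sufficiency -/

section
variable {p : ℕ} [hp : Fact p.Prime] {B : Type u} [RelAlg B]

theorem good_rep_aux (h : Good p B) (hc : ∀ S : Set B, ∃ x, IsLUB S x) {e0 : B}
    (he0 : IAt e0) (hmax : PType p e0 ∨ (∀ e : B, IAt e → ¬ PType p e)) :
    InK p B := by
  obtain ⟨h1, h2, h3, h4, h5, h6⟩ := h
  have hat : ∀ x : B, x ≠ ⊥ → ∃ a, IsAtom a ∧ a ≤ x := by
    intro x hx
    obtain ⟨a, ha, hax⟩ := h3 x hx
    exact ⟨a, at_iff.mp ha, le_iff.mp hax⟩
  have he0a : IsAtom e0 := at_iff.mp he0.1
  have he0s : e0 ≤ ident := le_iff.mp he0.2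
  have hce0 : conv e0 = e0 := (ident_atom he0a he0s).1
  have hee0 : comp e0 e0 = e0 := (ident_atom he0a he0s).2
  -- the key analysis of atoms with domain `e0`
  have key : ∀ a : B, IsAtom a → a ≤ comp e0 ⊤ → ∃ e, IAt e ∧ comp a e = a ∧
      a ≤ sq e0 e ∧ comp (conv a) a = e ∧ (sq e e = e ∨ comp a (conv a) = e0) := by
    intro a ha ha'
    obtain ⟨e, he, he1, he2, he3⟩ := range_atom hat ha
    have hIe : IAt e := ⟨at_iff.mpr he, le_iff.mpr he1⟩
    have hce : conv e = e := (ident_atom he he1).1
    have hee : comp e e = e := (ident_atom he he1).2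
    have hae : a ≤ sq e0 e := by
      have := comp_mono_left ha' e
      rwa [he3] at this
    have hcle : comp (conv a) a ≤ sq e e := by
      have e1 : comp (comp e (comp (conv a) a)) e = comp (conv a) a := by
        have e2 : comp e (conv a) = conv a := by
          have := congrArg conv he3
          rwa [conv_comp, hce] at this
        rw [← comp_assoc e, e2, comp_assoc, he3]
      rw [← e1]
      exact comp_mono_left (comp_mono_right le_top _) _
    refine ⟨e, hIe, he3, hae, ?_⟩
    rcases h4 e hIe with h7 | h7
    · refine ⟨?_, Or.inl h7⟩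
      rw [h7] at hcle
      exact le_antisymm hcle he2
    · have hP0 : PType p e0 := by
        rcases hmax with h8 | h8
        · exact h8
        · exact absurd h7 (h8 e hIe)
      obtain ⟨f, hf1, hf2, hf3⟩ := h5 e0 e he0 hIe hP0 h7
      obtain ⟨b, hb1, hb2, hb3⟩ := h7
      have hca : comp (comp (conv (conv f)) (conv f)) a = a := by
        rw [conv_conv, hf2]
        exact comp_left_sub he0s hce0 ha'
      have hx : IsAtom (comp (conv f) a) := by
        apply bij_atom _ hca ha
        rw [conv_conv, hf3]; exact he1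
      have hxle : comp (conv f) a ≤ sq e e := by
        have e1 : conv f ≤ sq e e0 := by
          have := conv_mono (le_iff.mp hf1)
          unfold sq at this ⊢
          rwa [conv_comp, conv_comp, conv_top, hce, hce0, ← comp_assoc] at this
        have e2 := comp_mono e1 hae
        have e3 : comp (sq e e0) (sq e0 e) = comp (comp e (comp (comp ⊤ e0) (comp e0 ⊤))) e := by
          unfold sq
          simp only [comp_assoc]
        rw [e3] at e2
        exact e2.trans (comp_mono_left (comp_mono_right le_top _) _)
      obtain ⟨i, hi⟩ := hb3 _ (at_iff.mpr hx) (le_iff.mpr hxle)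
      obtain ⟨_, _, hi1, hi2⟩ := hb2 i
      rw [← hi] at hi1 hi2
      have hfa : comp f (comp (conv f) a) = a := by
        rw [← comp_assoc, hf2]
        exact comp_left_sub he0s hce0 ha'
      have hfe : comp f e = f := by
        apply comp_right_sub he1 hce
        refine (le_iff.mp hf1).trans ?_
        exact comp_mono_left le_top _
      constructor
      · have e4 : conv (comp (conv f) a) = comp (conv a) f := by
          rw [conv_comp, conv_conv]
        rw [e4] at hi2
        rw [comp_assoc, ← comp_assoc f, hf2] at hi2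
        rwa [comp_left_sub he0s hce0 ha'] at hi2
      · right
        have e4 : comp a (conv a) = comp (comp f (comp (comp (conv f) a)
            (conv (comp (conv f) a)))) (conv f) := by
          rw [← comp_assoc f, hfa, comp_assoc, ← conv_comp, hfa]
        rw [e4, hi1, hfe, hf2]
  have hH : Hyp B e0 := by
    refine ⟨hat, he0a, he0s, h2, ?_, ?_, ?_⟩
    · intro a ha ha'
      obtain ⟨e, hIe, _, _, h7, _⟩ := key a ha ha'
      rw [h7]
      exact le_iff.mp hIe.2
    · intro a b ha ha' hb hb'
      obtain ⟨e, hIe, hae, hae', h7, h8⟩ := key a ha ha'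
      obtain ⟨e', hIe', hbe, hbe', h7', h8'⟩ := key b hb hb'
      have hbij : ∀ a b e : B, IsAtom b → b ≤ comp e0 ⊤ → IAt e → comp (conv a) a = e →
          comp a (conv a) = e0 → IsAtom (comp (conv a) b) := by
        intro a b e hb hb' hIe h7 h8
        apply bij_atom _ _ hb
        · rw [conv_conv, h7]; exact le_iff.mp hIe.2
        · rw [conv_conv, h8]; exact comp_left_sub he0s hce0 hb'
      rcases h8 with h8 | h8
      · rcases h8' with h9 | h9
        · have h10 := h6 e e' hIe hIe' h8
          have h11 : comp (conv a) b ≤ sq e e' := by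
            have hce : conv e = e := (ident_atom (at_iff.mp hIe.1) (le_iff.mp hIe.2)).1
            have e1 : comp (comp e (comp (conv a) b)) e' = comp (conv a) b := by
              have e2 : comp e (conv a) = conv a := by
                have := congrArg conv hae
                rwa [conv_comp, hce] at this
              rw [← comp_assoc e, e2, comp_assoc, hbe]
            rw [← e1]
            exact comp_mono_left (comp_mono_right le_top _) _
          have h12 : comp (conv a) b ≠ ⊥ := by
            intro h13
            have hdom : e0 ≤ comp a (conv a) := by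
              apply atom_le he0a
              apply cyc2
              rw [comp_left_sub he0s hce0 ha']
              simpa using ha.1
            have h14 := comp_mono_left hdom b
            rw [comp_left_sub he0s hce0 hb', comp_assoc, h13, comp_bot] at h14
            exact hb.1 (le_bot_iff.mp h14)
          rcases (at_iff.mp h10).le_iff.mp h11 with h13 | h13
          · exact absurd h13 h12
          · rw [h13]; exact at_iff.mp h10
        · have h10 := hbij b a e' ha ha' hIe' h7' h9
          have h11 := conv_atom h10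
          rwa [conv_comp, conv_conv] at h11
      · exact hbij a b e hb hb' hIe h7 h8
    · intro g hg hg'
      rcases h4 e0 he0 with h7 | h7
      · have h8 : g = e0 := by
          apply atom_eq hg he0a
          have : g ≤ sq e0 e0 := hg'
          rwa [h7] at this
        rw [h8, hce0, hee0]
        exact ⟨rfl, rfl⟩
      · obtain ⟨b, hb1, hb2, hb3⟩ := h7
        obtain ⟨i, hi⟩ := hb3 g (at_iff.mpr hg) (le_iff.mpr hg')
        rw [hi]
        exact ⟨(hb2 i).2.2.1, (hb2 i).2.2.2⟩
  -- the group has order 1 or p
  have hsurj : ∃ φ : Multiplicative (ZMod p) →* Grp hH, Function.Surjective φ := by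
    rcases h4 e0 he0 with h7 | h7
    · refine ⟨1, ?_⟩
      intro g
      refine ⟨1, ?_⟩
      apply Grp.ext
      have h8 : g.1 = e0 := by
        apply atom_eq g.2.1 he0a
        have : g.1 ≤ sq e0 e0 := g.2.2
        rwa [h7] at this
      rw [h8]
      rfl
    · obtain ⟨b, hb1, hb2, hb3⟩ := h7
      let ψ : Fin p → Grp hH := fun i => ⟨b i, at_iff.mp (hb2 i).1, le_iff.mp (hb2 i).2.1⟩
      have hψ : Function.Bijective ψ := by
        constructor
        · intro i j hij
          rcases hb1 i j with h8 | h8
          · exact h8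
          · exact absurd (congrArg Subtype.val hij) h8
        · intro g
          obtain ⟨i, hi⟩ := hb3 g.1 (at_iff.mpr g.2.1) (le_iff.mpr g.2.2)
          exact ⟨i, Grp.ext _ hi.symm⟩
      have hcard : Nat.card (Grp hH) = p := by
        rw [← Nat.card_congr (Equiv.ofBijective ψ hψ)]
        simp
      have hcard2 : Nat.card (Multiplicative (ZMod p)) = p := by
        simp
      exact ⟨(mulEquivOfPrimeCardEq hcard2 hcard).toMonoidHom,
        (mulEquivOfPrimeCardEq hcard2 hcard).surjective⟩
  obtain ⟨φ, hφ⟩ := hsurj
  refine ⟨Pt hH, ⟨⟨e0, he0a, ?_⟩⟩, actOf hH φ, rep_iso hH φ hφ hc⟩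
  have := comp_mono_right (le_top : (ident : B) ≤ ⊤) e0
  rwa [comp_ident] at this

theorem good_rep (h : Good p B) (hc : ∀ S : Set B, ∃ x, IsLUB S x) : InK p B := by
  by_cases hP : ∃ e : B, IAt e ∧ PType p e
  · obtain ⟨e, he, hPe⟩ := hP
    exact good_rep_aux h hc he (Or.inl hPe)
  · have hid : ¬ (ident : B) = ⊥ := by
      intro h0
      apply h.1
      have := ident_comp (⊤ : B)
      rw [h0, bot_comp] at this
      exact this
    obtain ⟨e, he, he'⟩ := h.2.2.1 _ hid
    refine good_rep_aux h hc (e0 := e) ⟨he, he'⟩ (Or.inr ?_)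
    intro e' h1 h2
    exact hP ⟨e', h1, h2⟩

end

end Q204.RA
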