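import Pool.Agent.Q204.RA.Good

/-!
# The relation algebra of a `ℤ_p`-set satisfies the conditions
-/

namespace Q204.RA

universe u

open RelAlg

section orb

variable {G : Type} {A : Type u} [Group G] [MulAction G A]

theorem rel_ext {R S : Rel G A} (h : ∀ x y, (x, y) ∈ R.1 ↔ (x, y) ∈ S.1) : R = S := by
  apply Subtype.ext
  ext ⟨x, y⟩
  exact h x y

/-- the orbit of a pair -/
def orb (G : Type) {A : Type u} [Group G] [MulAction G A] (x y : A) : Rel G A :=
  ⟨{q | ∃ g : G, g • x = q.1 ∧ g • y = q.2}, by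
    rintro g u v ⟨h, h1, h2⟩
    refine ⟨g * h, ?_, ?_⟩
    · rw [mul_smul, h1]
    · rw [mul_smul, h2]⟩

theorem mem_orb {x y u v : A} : (u, v) ∈ (orb G x y).1 ↔ ∃ g : G, g • x = u ∧ g • y = v :=
  Iff.rfl

theorem self_mem_orb (x y : A) : (x, y) ∈ (orb G x y).1 := ⟨1, by simp, by simp⟩

theorem orb_le {x y : A} {R : Rel G A} : orb G x y ≤ R ↔ (x, y) ∈ R.1 := by
  constructor
  · intro h
    exact h (self_mem_orb x y)
  · rintro h ⟨u, v⟩ ⟨g, h1, h2⟩
    have := R.2 g _ _ h
    simp only at h1 h2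
    rwa [h1, h2] at this

theorem mem_comp {R S : Rel G A} {x y : A} :
    (x, y) ∈ (comp R S).1 ↔ ∃ z, (x, z) ∈ R.1 ∧ (z, y) ∈ S.1 := Iff.rfl

theorem mem_conv {R : Rel G A} {x y : A} : (x, y) ∈ (conv R).1 ↔ (y, x) ∈ R.1 := Iff.rfl

theorem mem_ident {x y : A} : (x, y) ∈ (ident : Rel G A).1 ↔ x = y := Iff.rfl

theorem mem_top {x y : A} : (x, y) ∈ (⊤ : Rel G A).1 := trivial

theorem not_mem_bot {x y : A} : ¬ (x, y) ∈ (⊥ : Rel G A).1 := fun h => h

theorem exists_mem {R : Rel G A} (h : R ≠ ⊥) : ∃ x y, (x, y) ∈ R.1 := by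
  by_contra hn
  apply h
  apply rel_ext
  intro x y
  constructor
  · intro h'
    exact absurd ⟨x, y, h'⟩ hn
  · intro h'
    exact h'.elim

theorem orb_ne_bot (x y : A) : orb G x y ≠ ⊥ := by
  intro h
  have := self_mem_orb (G := G) x y
  rw [h] at this
  exact this

theorem orb_atom (x y : A) : IsAtom (orb G x y) := by
  refine isAtom_iff_le_of_ge.mpr ⟨orb_ne_bot x y, ?_⟩
  intro R hR hle
  obtain ⟨u, v, huv⟩ := exists_mem hR
  obtain ⟨g, h1, h2⟩ := hle huv
  simp only at h1 h2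
  rw [orb_le]
  have := R.2 g⁻¹ _ _ huv
  rw [← h1, ← h2] at this
  simpa using this

theorem atom_orb {R : Rel G A} (h : IsAtom R) : ∃ x y, R = orb G x y := by
  obtain ⟨x, y, hxy⟩ := exists_mem h.1
  exact ⟨x, y, (atom_eq (orb_atom x y) h (orb_le.mpr hxy)).symm⟩

theorem iat_orb {R : Rel G A} (h : IAt R) : ∃ x, R = orb G x x := by
  obtain ⟨x, y, hxy⟩ := atom_orb (at_iff.mp h.1)
  have h2 : R ≤ ident := le_iff.mp h.2
  rw [hxy, orb_le, mem_ident] at h2
  exact ⟨x, by rw [hxy, h2]⟩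

theorem mem_sq {x y u v : A} : (u, v) ∈ (sq (orb G x x) (orb G y y)).1 ↔
    ∃ g h : G, g • x = u ∧ h • y = v := by
  unfold sq
  constructor
  · rintro ⟨z, ⟨w, ⟨g, h1, h2⟩, _⟩, ⟨h, h3, h4⟩⟩
    exact ⟨g, h, h1, h4⟩
  · rintro ⟨g, h, h1, h2⟩
    exact ⟨v, ⟨u, ⟨g, h1, h1⟩, trivial⟩, ⟨h, h2, h2⟩⟩

/-- `x` has trivial stabilizer -/
def Free (G : Type) {A : Type u} [Group G] [MulAction G A] (x : A) : Prop :=
  ∀ g : G, g • x = x → g = 1

/-- `x` is fixed -/
def Fixed (G : Type) {A : Type u} [Group G] [MulAction G A] (x : A) : Prop :=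
  ∀ g : G, g • x = x

theorem Free.inj {x : A} (h : Free G x) {g g' : G} (h' : g • x = g' • x) : g = g' := by
  have : (g'⁻¹ * g) • x = x := by
    rw [mul_smul, h', ← mul_smul]
    simp
  have h2 := h _ this
  rw [inv_mul_eq_one] at h2
  exact h2.symm

theorem fixed_or_free {p : ℕ} [Fact p.Prime] (hG : Nat.card G = p) (x : A) :
    Fixed G x ∨ Free G x := by
  have : Fact (Nat.card G).Prime := by rw [hG]; infer_instance
  rcases Subgroup.eq_bot_or_eq_top_of_prime_card (MulAction.stabilizer G x) with h | h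
  · right
    intro g hg
    have : g ∈ MulAction.stabilizer G x := hg
    rw [h] at this
    exact Subgroup.mem_bot.mp this
  · left
    intro g
    have : g ∈ MulAction.stabilizer G x := by rw [h]; trivial
    exact this

theorem sq_fixed {x : A} (h : Fixed G x) : sq (orb G x x) (orb G x x) = orb G x x := by
  apply rel_ext
  intro u v
  rw [mem_sq]
  constructor
  · rintro ⟨g, g', rfl, rfl⟩
    exact ⟨1, by simp only; rw [h, h], by simp only; rw [h, h]⟩
  · rintro ⟨g, rfl, rfl⟩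
    exact ⟨g, g, rfl, rfl⟩

theorem orb_comp_conv {x y : A} (hy : Free G y) : comp (orb G x y) (conv (orb G x y)) =
    orb G x x := by
  apply rel_ext
  intro u v
  rw [mem_comp]
  constructor
  · rintro ⟨w, ⟨g, h1, h2⟩, ⟨g', h3, h4⟩⟩
    simp only at h1 h2 h3 h4
    have := hy.inj (h2.trans h4.symm)
    subst this
    exact ⟨g, h1, h3⟩
  · rintro ⟨g, h1, h2⟩
    exact ⟨g • y, ⟨g, h1, rfl⟩, ⟨g, h2, rfl⟩⟩

theorem conv_orb {x y : A} : conv (orb G x y) = orb G y x := by
  apply rel_ext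
  intro u v
  rw [mem_conv, mem_orb, mem_orb]
  exact ⟨fun ⟨g, h1, h2⟩ => ⟨g, h2, h1⟩, fun ⟨g, h1, h2⟩ => ⟨g, h2, h1⟩⟩

theorem conv_comp_orb {x y : A} (hx : Free G x) : comp (conv (orb G x y)) (orb G x y) =
    orb G y y := by
  have := orb_comp_conv (G := G) (x := y) (y := x) hx
  rwa [conv_orb, ← conv_orb (G := G) (x := x) (y := y)] at this

theorem free_smul {G : Type} {A : Type u} [CommGroup G] [MulAction G A] {x : A}
    (h : Free G x) (g : G) : Free G (g • x) := by
  intro g' h'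
  apply h
  have : g⁻¹ • (g' • g • x) = x := by rw [h']; simp
  rw [← mul_smul, ← mul_smul] at this
  have h2 : g⁻¹ * g' * g = g' := by
    rw [mul_comm g⁻¹ g', mul_assoc]; simp
  rwa [h2] at this

theorem orb_smul_self {G : Type} {A : Type u} [CommGroup G] [MulAction G A] (x : A) (g : G) :
    orb G (g • x) (g • x) = orb G x x := by
  apply rel_ext
  intro u v
  constructor
  · rintro ⟨h, rfl, rfl⟩
    exact ⟨h * g, by simp [mul_smul], by simp [mul_smul]⟩
  · rintro ⟨h, rfl, rfl⟩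
    exact ⟨h * g⁻¹, by simp [mul_smul], by simp [mul_smul]⟩

end orb

section
variable {p : ℕ} [hp : Fact p.Prime] {G : Type} {A : Type u} [CommGroup G] [MulAction G A]

theorem ptype_of_free (hG : Nat.card G = p) {x : A} (h : Free G x) :
    PType p (orb G x x) := by
  have : Finite G := Nat.finite_of_card_ne_zero (by rw [hG]; exact hp.1.ne_zero)
  have e : Fin p ≃ G := (finCongr hG).symm.trans (Finite.equivFin G).symm
  refine ⟨fun i => orb G x (e i • x), ?_, ?_, ?_⟩
  · intro i j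
    by_cases hij : i = j
    · exact Or.inl hij
    · right
      intro h1
      have h1' : orb G x (e i • x) = orb G x (e j • x) := h1
      have h2 : (x, e i • x) ∈ (orb G x (e j • x)).1 := by
        rw [← h1']
        exact self_mem_orb _ _
      obtain ⟨g, h3, h4⟩ := h2
      have h5 := h g h3
      rw [h5] at h4
      simp only [one_smul] at h4
      exact hij (e.injective (h.inj h4).symm)
  · intro i
    refine ⟨at_iff.mpr (orb_atom _ _), ?_, orb_comp_conv (free_smul h _), ?_⟩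
    · rw [le_iff, orb_le, mem_sq]
      exact ⟨1, e i, by simp, rfl⟩
    · rw [conv_comp_orb h, orb_smul_self]
  · intro R hR hle
    obtain ⟨u, v, rfl⟩ := atom_orb (at_iff.mp hR)
    rw [le_iff, orb_le, mem_sq] at hle
    obtain ⟨g, g', h1, h2⟩ := hle
    refine ⟨e.symm (g⁻¹ * g'), ?_⟩
    change orb G u v = orb G x (e (e.symm (g⁻¹ * g')) • x)
    rw [Equiv.apply_symm_apply]
    apply atom_eq (orb_atom _ _) (orb_atom _ _)
    rw [orb_le]
    refine ⟨g, h1, ?_⟩
    simp only
    rw [← mul_smul, mul_inv_cancel_left, h2]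

theorem free_of_ptype (hG : Nat.card G = p) {x : A} (h : PType p (orb G x x)) : Free G x := by
  rcases fixed_or_free hG x with h1 | h1
  · exfalso
    obtain ⟨a, ha1, ha2, _⟩ := h
    have h2 := hp.1.two_le
    let i : Fin p := ⟨0, by omega⟩
    let j : Fin p := ⟨1, by omega⟩
    have hij : ¬ i = j := by
      intro h3
      have := congrArg Fin.val h3
      simp [i, j] at this
    have h3 : ∀ k, a k = orb G x x := by
      intro k
      obtain ⟨h4, h5, _⟩ := ha2 k
      rw [sq_fixed h1, le_iff] at h5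
      exact atom_eq (at_iff.mp h4) (orb_atom _ _) h5
    rcases ha1 i j with h4 | h4
    · exact hij h4
    · exact h4 (by rw [h3, h3])
  · exact h1

theorem rel_good (hG : Nat.card G = p) [Nonempty A] : Good p (Rel G A) := by
  refine ⟨?_, ?_, ?_, ?_, ?_, ?_⟩
  · intro h
    obtain ⟨x⟩ := (inferInstance : Nonempty A)
    have : (x, x) ∈ (⊤ : Rel G A).1 := trivial
    rw [← h] at this
    exact this
  · intro R hR
    obtain ⟨x, y, hxy⟩ := exists_mem hR
    apply rel_ext
    intro u v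
    constructor
    · intro _
      trivial
    · intro _
      exact ⟨y, ⟨x, trivial, hxy⟩, trivial⟩
  · intro R hR
    obtain ⟨x, y, hxy⟩ := exists_mem hR
    exact ⟨orb G x y, at_iff.mpr (orb_atom _ _), le_iff.mpr (orb_le.mpr hxy)⟩
  · intro e he
    obtain ⟨x, rfl⟩ := iat_orb he
    rcases fixed_or_free hG x with h1 | h1
    · exact Or.inl (sq_fixed h1)
    · exact Or.inr (ptype_of_free hG h1)
  · intro e e' he he' h1 h2
    obtain ⟨x, rfl⟩ := iat_orb he
    obtain ⟨y, rfl⟩ := iat_orb he'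
    have hx := free_of_ptype hG h1
    have hy := free_of_ptype hG h2
    refine ⟨orb G x y, ?_, orb_comp_conv hy, conv_comp_orb hx⟩
    rw [le_iff, orb_le, mem_sq]
    exact ⟨1, 1, by simp, by simp⟩
  · intro e e' he he' h1
    obtain ⟨x, rfl⟩ := iat_orb he
    obtain ⟨y, rfl⟩ := iat_orb he'
    have hx : Fixed G x := by
      rcases fixed_or_free hG x with h2 | h2
      · exact h2
      · intro g
        have h3 : (x, g • x) ∈ (orb G x x).1 := by
          rw [← h1, mem_sq]
          exact ⟨1, g, by simp, rfl⟩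
        obtain ⟨g', h4, h5⟩ := h3
        simp only at h4 h5
        exact h5.symm.trans h4
    have h2 : sq (orb G x x) (orb G y y) = orb G x y := by
      apply rel_ext
      intro u v
      rw [mem_sq]
      constructor
      · rintro ⟨g, g', rfl, rfl⟩
        exact ⟨g', by simp only; rw [hx, hx], rfl⟩
      · rintro ⟨g, rfl, rfl⟩
        exact ⟨g, g, rfl, rfl⟩
    rw [h2]
    exact at_iff.mpr (orb_atom _ _)

theorem rel_complete (S : Set (Rel G A)) : ∃ x, IsLUB S x := by
  refine ⟨⟨{q | ∃ R ∈ S, q ∈ R.1}, ?_⟩, ?_, ?_⟩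
  · rintro g x y ⟨R, hR, h⟩
    exact ⟨R, hR, R.2 g x y h⟩
  · intro R hR q hq
    exact ⟨R, hR, hq⟩
  · rintro T hT q ⟨R, hR, hq⟩
    exact hT hR hq

end

end Q204.RA
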