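import Pool.Agent.Q204.RA.Basic

/-!
# The representation over the atoms with a given domain
-/

namespace Q204.RA

universe u

open RelAlg

/-- The hypotheses needed for the representation. -/
structure Hyp (B : Type u) [RelAlg B] (e0 : B) : Prop where
  atomic : ∀ x : B, x ≠ ⊥ → ∃ a, IsAtom a ∧ a ≤ x
  atom : IsAtom e0
  sub : e0 ≤ ident
  simple : ∀ x : B, x ≠ ⊥ → comp (comp ⊤ x) ⊤ = ⊤
  fn : ∀ a : B, IsAtom a → a ≤ comp e0 ⊤ → comp (conv a) a ≤ ident
  at2 : ∀ a b : B, IsAtom a → a ≤ comp e0 ⊤ → IsAtom b → b ≤ comp e0 ⊤ →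
    IsAtom (comp (conv a) b)
  bij : ∀ g : B, IsAtom g → g ≤ comp (comp e0 ⊤) e0 → comp g (conv g) = e0 ∧
    comp (conv g) g = e0

variable {B : Type u} [RelAlg B] {e0 : B}

namespace Hyp

variable (H : Hyp B e0)
include H

theorem conv_e0 : conv e0 = e0 := (ident_atom H.atom H.sub).1
theorem e0_e0 : comp e0 e0 = e0 := (ident_atom H.atom H.sub).2

theorem e0_comp {a : B} (h : a ≤ comp e0 ⊤) : comp e0 a = a :=
  comp_left_sub H.sub H.conv_e0 h

theorem le_dom {c : B} (hc : IsAtom c) (h : c ≤ comp e0 ⊤) : e0 ≤ comp c (conv c) := by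
  apply atom_le H.atom
  apply cyc2
  rw [H.e0_comp h]
  simpa using hc.1

/-- the label of a pair. -/
theorem lam_le {a b c : B} (hb : b ≤ comp e0 ⊤) (hc : IsAtom c)
    (hc' : c ≤ comp e0 ⊤) :
    comp (conv a) b ≤ comp (comp (conv a) c) (comp (conv c) b) := by
  have h1 : comp (comp (conv a) c) (comp (conv c) b) =
      comp (conv a) (comp (comp c (conv c)) b) := by
    rw [comp_assoc, comp_assoc]
  rw [h1]
  apply comp_mono_right
  have := comp_mono_left (H.le_dom hc hc') b
  rwa [H.e0_comp hb] at this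

theorem lam_factor {a b r s : B} (ha : IsAtom a) (ha' : a ≤ comp e0 ⊤) (hb : IsAtom b)
    (hb' : b ≤ comp e0 ⊤) (hr : IsAtom r) (hs : IsAtom s)
    (h : comp (conv a) b ≤ comp r s) :
    ∃ c, IsAtom c ∧ c ≤ comp e0 ⊤ ∧ comp (conv a) c = r ∧ comp (conv c) b = s := by
  have h1 : b ≤ comp (comp a r) s := by
    have h2 : b ≤ comp (comp a (conv a)) b := by
      have := comp_mono_left (H.le_dom ha ha') b
      rwa [H.e0_comp hb'] at this
    rw [comp_assoc] at h2
    have h3 := comp_mono_right h a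
    rw [← comp_assoc a r s] at h3
    exact h2.trans h3
  have h2 : comp (comp a r) s ⊓ b ≠ ⊥ := atom_inf hb h1
  obtain ⟨c, hc, hcle⟩ := H.atomic _ (cyc2 h2)
  have hc1 : c ≤ comp b (conv s) := hcle.trans inf_le_left
  have hc2 : c ≤ comp a r := hcle.trans inf_le_right
  have hce : c ≤ comp e0 ⊤ := by
    have h3 : comp a r ≤ comp (comp e0 ⊤) r := comp_mono_left ha' r
    rw [comp_assoc] at h3
    exact hc2.trans (h3.trans (comp_mono_right le_top _))
  refine ⟨c, hc, hce, ?_, ?_⟩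
  · have h3 := cyc1 (atom_inf hc hc2)
    exact atom_eq (H.at2 a c ha ha' hc hce) hr
      (by
        have h4 := atom_le hr (x := comp (conv a) c) h3
        exact (atom_eq hr (H.at2 a c ha ha' hc hce) h4).symm.le)
  · have h3 := cyc1 (atom_inf hc hc1)
    have h4 := atom_le (conv_atom hs) (x := comp (conv b) c) h3
    have h5 := atom_eq (conv_atom hs) (H.at2 b c hb hb' hc hce) h4
    have h6 := congrArg conv h5
    rw [conv_conv, conv_comp, conv_conv] at h6
    exact h6.symm

theorem lam_ident {a b : B} (ha : IsAtom a) (ha' : a ≤ comp e0 ⊤) (hb : IsAtom b)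
    (hb' : b ≤ comp e0 ⊤) : comp (conv a) b ≤ ident ↔ a = b := by
  constructor
  · intro h
    have h2 : b ≤ comp (comp a (conv a)) b := by
      have := comp_mono_left (H.le_dom ha ha') b
      rwa [H.e0_comp hb'] at this
    rw [comp_assoc] at h2
    have h3 := comp_mono_right h a
    rw [comp_ident] at h3
    exact (atom_eq hb ha (h2.trans h3)).symm
  · intro h
    subst h
    exact H.fn a ha ha'

theorem lam_surj {r : B} (hr : IsAtom r) : ∃ a b, IsAtom a ∧ a ≤ comp e0 ⊤ ∧ IsAtom b ∧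
    b ≤ comp e0 ⊤ ∧ comp (conv a) b = r := by
  have h0 : comp (comp e0 ⊤) r ≠ ⊥ := by
    intro h
    have h1 : comp (comp (comp ⊤ e0) ⊤) r = ⊥ := by
      rw [comp_assoc ⊤ e0 ⊤, comp_assoc ⊤ (comp e0 ⊤) r, h, comp_bot]
    rw [H.simple e0 H.atom.1] at h1
    have h2 : comp ident r ≤ comp ⊤ r := comp_mono_left le_top r
    rw [ident_comp, h1] at h2
    exact hr.1 (le_bot_iff.mp h2)
  obtain ⟨b, hb, hble⟩ := H.atomic _ h0
  have hb' : b ≤ comp e0 ⊤ := by
    rw [comp_assoc] at hble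
    exact hble.trans (comp_mono_right le_top _)
  obtain ⟨a, ha, hale⟩ := H.atomic _ (cyc2 (atom_inf hb hble))
  have ha1 : a ≤ comp b (conv r) := hale.trans inf_le_left
  have ha2 : a ≤ comp e0 ⊤ := hale.trans inf_le_right
  refine ⟨a, b, ha, ha2, hb, hb', ?_⟩
  have h3 := cyc1 (atom_inf ha ha1)
  have h4 := atom_eq (conv_atom hr) (H.at2 b a hb hb' ha ha2) (atom_le (conv_atom hr) h3)
  have h5 := congrArg conv h4
  rw [conv_conv, conv_comp, conv_conv] at h5
  exact h5.symm

theorem grp_le {g : B} (h : g ≤ comp (comp e0 ⊤) e0) : g ≤ comp e0 ⊤ := by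
  rw [comp_assoc] at h
  exact h.trans (comp_mono_right le_top _)

theorem act_atom {g a : B} (hg : IsAtom g) (hg' : g ≤ comp (comp e0 ⊤) e0) (ha : IsAtom a)
    (ha' : a ≤ comp e0 ⊤) : IsAtom (comp g a) := by
  apply bij_atom _ _ ha
  · rw [(H.bij g hg hg').1]
    exact H.sub
  · rw [(H.bij g hg hg').2]
    exact H.e0_comp ha'

theorem act_le {g : B} (a : B) (hg' : g ≤ comp (comp e0 ⊤) e0) :
    comp g a ≤ comp e0 ⊤ := by
  have h3 := comp_mono_left (H.grp_le hg') a
  rw [comp_assoc] at h3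
  exact h3.trans (comp_mono_right le_top _)

theorem grp_mul_le {g h : B} (hg' : g ≤ comp (comp e0 ⊤) e0) (hh' : h ≤ comp (comp e0 ⊤) e0) :
    comp g h ≤ comp (comp e0 ⊤) e0 := by
  have h1 : comp g h ≤ comp (comp e0 ⊤) (comp (comp e0 ⊤) e0) :=
    comp_mono (H.grp_le hg') hh'
  have h2 : comp (comp e0 ⊤) (comp (comp e0 ⊤) e0) = comp (comp e0 (comp (comp ⊤ e0) ⊤)) e0 := by
    simp only [comp_assoc]
  rw [h2] at h1
  exact h1.trans (comp_mono_left (comp_mono_right le_top _) _)

theorem grp_inv_le {g : B} (hg' : g ≤ comp (comp e0 ⊤) e0) :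
    conv g ≤ comp (comp e0 ⊤) e0 := by
  have := conv_mono hg'
  rw [conv_comp, conv_comp, conv_top, H.conv_e0, ← comp_assoc] at this
  exact this

theorem one_le : e0 ≤ comp (comp e0 ⊤) e0 := by
  have h1 : comp (comp e0 ident) e0 ≤ comp (comp e0 ⊤) e0 :=
    comp_mono_left (comp_mono_right le_top _) _
  rwa [comp_ident, H.e0_e0] at h1

/-- two pairs have the same label iff they are in the same orbit. -/
theorem lam_fibre {a b c d : B} (ha : IsAtom a) (ha' : a ≤ comp e0 ⊤) (hb : IsAtom b)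
    (hb' : b ≤ comp e0 ⊤) (hc : IsAtom c) (hc' : c ≤ comp e0 ⊤) (hd : IsAtom d)
    (hd' : d ≤ comp e0 ⊤) (h : comp (conv a) b = comp (conv c) d) :
    ∃ g, IsAtom g ∧ g ≤ comp (comp e0 ⊤) e0 ∧ comp g a = c ∧ comp g b = d := by
  have h1 : d ≤ comp (comp c (conv a)) b := by
    have h2 : d ≤ comp (comp c (conv c)) d := by
      have := comp_mono_left (H.le_dom hc hc') d
      rwa [H.e0_comp hd'] at this
    rw [comp_assoc, ← h, ← comp_assoc] at h2
    exact h2
  obtain ⟨g, hg, hgle⟩ := H.atomic _ (cyc2 (atom_inf hd h1))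
  have hg1 : g ≤ comp d (conv b) := hgle.trans inf_le_left
  have hg2 : g ≤ comp c (conv a) := hgle.trans inf_le_right
  have hg3 : g ≤ comp (comp e0 ⊤) e0 := by
    have h2 : comp c (conv a) ≤ comp (comp e0 ⊤) (comp ⊤ e0) := by
      apply comp_mono hc'
      have := conv_mono ha'
      rwa [conv_comp, conv_top, H.conv_e0] at this
    have h3 : comp (comp e0 ⊤) (comp ⊤ e0) = comp (comp e0 (comp ⊤ ⊤)) e0 := by
      simp only [comp_assoc]
    rw [h3] at h2
    exact hg2.trans (h2.trans (comp_mono_left (comp_mono_right le_top _) _))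
  refine ⟨g, hg, hg3, ?_, ?_⟩
  · have h4 := cyc2 (atom_inf hg hg2)
    rw [conv_conv] at h4
    exact (atom_eq hc (H.act_atom hg hg3 ha ha') (atom_le hc h4)).symm
  · have h4 := cyc2 (atom_inf hg hg1)
    rw [conv_conv] at h4
    exact (atom_eq hd (H.act_atom hg hg3 hb hb') (atom_le hd h4)).symm

theorem lam_act {g : B} (a b : B) (hg : IsAtom g) (hg' : g ≤ comp (comp e0 ⊤) e0)
    (hb' : b ≤ comp e0 ⊤) : comp (conv (comp g a)) (comp g b) = comp (conv a) b := by
  have h1 : comp (conv (comp g a)) (comp g b) = comp (conv a) (comp (comp (conv g) g) b) := by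
    rw [conv_comp]; simp only [comp_assoc]
  rw [h1, (H.bij g hg hg').2, H.e0_comp hb']

end Hyp

/-- composition of sups of atoms. -/
theorem comp_atoms (hat : ∀ x : B, x ≠ ⊥ → ∃ a, IsAtom a ∧ a ≤ x) {x y t : B} (ht : IsAtom t)
    (h : t ≤ comp x y) : ∃ r s, IsAtom r ∧ IsAtom s ∧ r ≤ x ∧ s ≤ y ∧ t ≤ comp r s := by
  obtain ⟨r, hr, hrle⟩ := hat _ (cyc2 (atom_inf ht h))
  have hr1 : r ≤ comp t (conv y) := hrle.trans inf_le_left
  have hr2 : r ≤ x := hrle.trans inf_le_right
  have h2 := cyc1 (atom_inf hr hr1)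
  have h3 : comp (conv t) r ⊓ conv y ≠ ⊥ := h2
  have h4 : comp (conv r) t ⊓ y ≠ ⊥ := by
    intro h5
    apply h3
    have := congrArg conv h5
    rwa [conv_inf, conv_comp, conv_conv, conv_bot] at this
  obtain ⟨s, hs, hsle⟩ := hat _ h4
  have hs1 : s ≤ comp (conv r) t := hsle.trans inf_le_left
  have hs2 : s ≤ y := hsle.trans inf_le_right
  refine ⟨r, s, hr, hs, hr2, hs2, ?_⟩
  have h5 := cyc1 (atom_inf hs hs1)
  rw [conv_conv] at h5
  exact atom_le ht h5

section rep

variable (H : Hyp B e0)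

/-- The base set of the representation. -/
def Pt (_ : Hyp B e0) : Type u := {a : B // IsAtom a ∧ a ≤ comp e0 ⊤}

/-- The group of atoms below `e0 ; 1 ; e0`. -/
def Grp (_ : Hyp B e0) : Type u := {g : B // IsAtom g ∧ g ≤ comp (comp e0 ⊤) e0}

theorem Pt.ext {x y : Pt H} (h : x.1 = y.1) : x = y := Subtype.ext h
theorem Grp.ext {x y : Grp H} (h : x.1 = y.1) : x = y := Subtype.ext h

instance : Mul (Grp H) := ⟨fun a b => ⟨comp a.1 b.1,
      H.act_atom a.2.1 a.2.2 b.2.1 (H.grp_le b.2.2), H.grp_mul_le a.2.2 b.2.2⟩⟩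

instance : One (Grp H) := ⟨⟨e0, H.atom, H.one_le⟩⟩

instance : Inv (Grp H) := ⟨fun a => ⟨conv a.1, conv_atom a.2.1, H.grp_inv_le a.2.2⟩⟩

theorem Grp.mul_val (a b : Grp H) : (a * b).1 = comp a.1 b.1 := rfl
theorem Grp.one_val : (1 : Grp H).1 = e0 := rfl
theorem Grp.inv_val (a : Grp H) : (a⁻¹).1 = conv a.1 := rfl

instance : Group (Grp H) :=
  Group.ofLeftAxioms
    (by
      intro a b c
      apply Grp.ext
      simp only [Grp.mul_val, comp_assoc])
    (by
      intro a
      apply Grp.ext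
      simp only [Grp.mul_val, Grp.one_val]
      exact H.e0_comp (H.grp_le a.2.2))
    (by
      intro a
      apply Grp.ext
      simp only [Grp.mul_val, Grp.one_val, Grp.inv_val]
      exact (H.bij a.1 a.2.1 a.2.2).2)

instance : MulAction (Grp H) (Pt H) where
  smul g a := ⟨comp g.1 a.1, H.act_atom g.2.1 g.2.2 a.2.1 a.2.2, H.act_le a.1 g.2.2⟩
  one_smul := by
    intro a
    apply Pt.ext
    exact H.e0_comp a.2.2
  mul_smul := by
    intro g h a
    apply Pt.ext
    exact comp_assoc _ _ _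

theorem Pt.smul_val (g : Grp H) (a : Pt H) : (g • a).1 = comp g.1 a.1 := rfl

/-- The label of a pair of points. -/
def lam (a b : Pt H) : B := comp (conv a.1) b.1

theorem lam_atom (a b : Pt H) : IsAtom (lam H a b) := H.at2 a.1 b.1 a.2.1 a.2.2 b.2.1 b.2.2

theorem lam_smul (g : Grp H) (a b : Pt H) : lam H (g • a) (g • b) = lam H a b :=
  H.lam_act a.1 b.1 g.2.1 g.2.2 b.2.2

theorem lam_eq_iff (a b c d : Pt H) : lam H a b = lam H c d ↔
    ∃ g : Grp H, g • a = c ∧ g • b = d := by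
  constructor
  · intro h
    obtain ⟨g, hg, hg', h1, h2⟩ := H.lam_fibre a.2.1 a.2.2 b.2.1 b.2.2 c.2.1 c.2.2 d.2.1 d.2.2 h
    exact ⟨⟨g, hg, hg'⟩, Pt.ext H h1, Pt.ext H h2⟩
  · rintro ⟨g, rfl, rfl⟩
    exact (lam_smul H g a b).symm

theorem atom_le_sup {a x y : B} (h : IsAtom a) : a ≤ x ⊔ y ↔ a ≤ x ∨ a ≤ y := by
  constructor
  · intro h1
    by_contra h2
    rw [not_or] at h2
    have h3 : a ⊓ x = ⊥ := by
      rcases h.le_iff.mp (inf_le_left : a ⊓ x ≤ a) with h4 | h4
      · exact h4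
      · exact absurd (inf_eq_left.mp h4) h2.1
    have h4 : a ⊓ y = ⊥ := by
      rcases h.le_iff.mp (inf_le_left : a ⊓ y ≤ a) with h4 | h4
      · exact h4
      · exact absurd (inf_eq_left.mp h4) h2.2
    apply h.1
    have h5 : a ⊓ (x ⊔ y) = ⊥ := by rw [inf_sup_left, h3, h4, sup_bot_eq]
    rwa [inf_eq_left.mpr h1] at h5
  · rintro (h1 | h1)
    · exact h1.trans le_sup_left
    · exact h1.trans le_sup_right

theorem atom_le_compl {a x : B} (h : IsAtom a) : a ≤ xᶜ ↔ ¬ a ≤ x := by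
  constructor
  · intro h1 h2
    apply h.1
    have := le_inf h2 h1
    rw [inf_compl_self] at this
    exact le_bot_iff.mp this
  · intro h1
    rw [le_compl_iff_disjoint_right, disjoint_iff]
    rcases h.le_iff.mp (inf_le_left : a ⊓ x ≤ a) with h4 | h4
    · exact h4
    · exact absurd (inf_eq_left.mp h4) h1

variable {G : Type} [Group G] (φ : G →* Grp H)

/-- The action of `G` through a homomorphism onto the group of atoms. -/
abbrev actOf : MulAction G (Pt H) := MulAction.compHom (Pt H) φ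

theorem rep_iso (hφ : Function.Surjective φ)
    (hc : ∀ S : Set B, ∃ x, IsLUB S x) :
    let _ := actOf H φ
    Nonempty (LRA.Equiv B (Rel G (Pt H))) := by
  let _ := actOf H φ
  have hsm : ∀ (g : G) (a : Pt H), g • a = φ g • a := fun g a => rfl
  let F : B → Rel G (Pt H) := fun b => ⟨{q | lam H q.1 q.2 ≤ b}, by
    intro g x y h
    change lam H (g • x) (g • y) ≤ b
    rw [hsm, hsm, lam_smul]
    exact h⟩
  have hF : ∀ b x y, (x, y) ∈ (F b).1 ↔ lam H x y ≤ b := fun b x y => Iff.rfl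
  have hext : ∀ {R S : Rel G (Pt H)}, (∀ x y, (x, y) ∈ R.1 ↔ (x, y) ∈ S.1) → R = S := by
    intro R S h
    apply Subtype.ext
    ext ⟨x, y⟩
    exact h x y
  have hle : ∀ b c, (F b = F c) → b ≤ c := by
    intro b c h
    by_contra hn
    have h1 : b ⊓ cᶜ ≠ ⊥ := by
      intro h2
      apply hn
      have := disjoint_iff.mpr h2
      rwa [disjoint_compl_right_iff] at this
    obtain ⟨r, hr, hrle⟩ := H.atomic _ h1
    obtain ⟨x, y, hx, hx', hy, hy', hxy⟩ := H.lam_surj hr
    obtain ⟨X, hX⟩ : ∃ X : Pt H, X.1 = x := ⟨⟨x, hx, hx'⟩, rfl⟩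
    obtain ⟨Y, hY⟩ : ∃ Y : Pt H, Y.1 = y := ⟨⟨y, hy, hy'⟩, rfl⟩
    have hXY : lam H X Y = r := by
      change comp (conv X.1) Y.1 = r
      rw [hX, hY, hxy]
    have h2 : (X, Y) ∈ (F b).1 := by
      rw [hF, hXY]
      exact hrle.trans inf_le_left
    rw [h, hF, hXY] at h2
    exact (atom_le_compl hr).mp (hrle.trans inf_le_right) h2
  have hinj : Function.Injective F := fun b c h => le_antisymm (hle b c h) (hle c b h.symm)
  have hsurj : Function.Surjective F := by
    intro R
    obtain ⟨b, hb⟩ := hc {r | ∃ q ∈ R.1, r = lam H q.1 q.2}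
    refine ⟨b, hext ?_⟩
    intro x y
    rw [hF]
    constructor
    · intro h
      by_contra hn
      have h1 : b ≤ (lam H x y)ᶜ := by
        apply hb.2
        rintro r ⟨⟨z, w⟩, hq, rfl⟩
        rw [le_compl_iff_disjoint_right, disjoint_iff]
        by_contra h2
        have h3 := atom_eq (lam_atom H x y) (lam_atom H z w)
          (atom_le (lam_atom H x y) h2)
        obtain ⟨g, h4, h5⟩ := (lam_eq_iff H _ _ _ _).mp h3.symm
        obtain ⟨g', rfl⟩ := hφ g
        apply hn
        have := R.2 g' z w hq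
        rw [hsm, hsm] at this
        change (φ g' • z, φ g' • w) ∈ R.1 at this
        have h4' : φ g' • z = x := h4
        have h5' : φ g' • w = y := h5
        rwa [h4', h5'] at this
      exact (atom_le_compl (lam_atom H x y)).mp (h.trans h1) le_rfl
    · intro h
      exact hb.1 ⟨(x, y), h, rfl⟩
  refine ⟨⟨Equiv.ofBijective F ⟨hinj, hsurj⟩, ?_, ?_⟩⟩
  · intro n f v
    cases f with
    | join =>
      apply hext
      intro x y
      exact atom_le_sup (lam_atom H x y)
    | meet =>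
      apply hext
      intro x y
      exact le_inf_iff
    | neg =>
      apply hext
      intro x y
      exact atom_le_compl (lam_atom H x y)
    | zero =>
      apply hext
      intro x y
      constructor
      · intro h
        exact (lam_atom H x y).1 (le_bot_iff.mp h)
      · intro h
        exact h.elim
    | one =>
      apply hext
      intro x y
      constructor
      · intro _
        trivial
      · intro _
        exact le_top
    | comp =>
      apply hext
      intro x y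
      change lam H x y ≤ comp (v 0) (v 1) ↔ ∃ z, lam H x z ≤ v 0 ∧ lam H z y ≤ v 1
      constructor
      · intro h
        obtain ⟨r, s, hr, hs, hr', hs', ht⟩ := comp_atoms H.atomic (lam_atom H x y) h
        obtain ⟨z, hz, hz', h1, h2⟩ := H.lam_factor x.2.1 x.2.2 y.2.1 y.2.2 hr hs ht
        obtain ⟨Z, hZ⟩ : ∃ Z : Pt H, Z.1 = z := ⟨⟨z, hz, hz'⟩, rfl⟩
        refine ⟨Z, ?_, ?_⟩
        · change comp (conv x.1) Z.1 ≤ v 0
          rw [hZ, h1]; exact hr'
        · change comp (conv Z.1) y.1 ≤ v 1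
          rw [hZ, h2]; exact hs'
      · rintro ⟨z, h1, h2⟩
        exact (H.lam_le y.2.2 z.2.1 z.2.2).trans (comp_mono h1 h2)
    | conv =>
      apply hext
      intro x y
      change comp (conv x.1) y.1 ≤ conv (v 0) ↔ comp (conv y.1) x.1 ≤ v 0
      rw [← conv_le_iff, conv_conv, conv_comp, conv_conv]
    | ident =>
      apply hext
      intro x y
      change comp (conv x.1) y.1 ≤ ident ↔ x = y
      rw [H.lam_ident x.2.1 x.2.2 y.2.1 y.2.2]
      exact ⟨fun h => Pt.ext H h, fun h => congrArg Subtype.val h⟩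
  · intro n r
    exact (nomatch (r : Empty))

end rep

end Q204.RA
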